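import Mathlib
import Pool.Agent.H21.UE.Defs

/-!
# Compound matrices (module EXT of the proof for MP_c80192_nt)
-/

open Module

namespace Pool.Agent.H4.UE

universe u

open Pool.Agent.H21.UE

/-- index conversion -/
def eSub (n p : ℕ) : Set.powersetCard (Fin n) p ≃ Sub n p where
  toFun s := ⟨s.1, s.2⟩
  invFun s := ⟨s.1, s.2⟩
  left_inv _ := rfl
  right_inv _ := rfl

section

variable {n : ℕ} (p : ℕ) {R : Type*} [CommRing R] {M : Type*} [AddCommGroup M] [Module R M]

/-- the basis of the exterior power attached to a basis of the module -/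
noncomputable def bE (b : Basis (Fin n) R M) : Basis (Sub n p) R (⋀[R]^p M) :=
  (b.exteriorPower p).reindex (eSub n p)

theorem bE_repr (b : Basis (Fin n) R M) (v : Fin p → M) (t : Sub n p) :
    (bE p b).repr (exteriorPower.ιMulti R p v) t =
      (Matrix.of fun i j => b.repr (v i) (t.1.orderEmbOfFin t.2 j)).det := by
  rw [bE, Basis.repr_reindex_apply, exteriorPower.basis_repr_apply,
    exteriorPower.ιMultiDual_apply_ιMulti]
  rfl

theorem bE_apply (b : Basis (Fin n) R M) (s : Sub n p) :
    bE p b s = exteriorPower.ιMulti R p (fun i => b (s.1.orderEmbOfFin s.2 i)) := by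
  rw [bE, Basis.reindex_apply, exteriorPower.basis_apply]
  rfl

end

theorem cmp_eq_repr {n : ℕ} (p : ℕ) {R : Type*} [CommRing R] (A : Matrix (Fin n) (Fin n) R)
    (s t : Sub n p) :
    cmp p A s t = (bE p (Pi.basisFun R (Fin n))).repr
      (exteriorPower.ιMulti R p (fun i => A (s.1.orderEmbOfFin s.2 i))) t := by
  rw [bE_repr]
  rfl

theorem cmp_mul {n : ℕ} (p : ℕ) {R : Type*} [CommRing R] (A B : Matrix (Fin n) (Fin n) R) :
    cmp p (A * B) = cmp p A * cmp p B := by
  ext s t
  rw [cmp_eq_repr, Matrix.mul_apply]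
  have h1 : exteriorPower.ιMulti R p (fun i => (A * B) (s.1.orderEmbOfFin s.2 i)) =
      exteriorPower.map p (Matrix.vecMulLinear B)
        (exteriorPower.ιMulti R p (fun i => A (s.1.orderEmbOfFin s.2 i))) := by
    rw [exteriorPower.map_apply_ιMulti]
    congr 1
  rw [h1, ← (bE p (Pi.basisFun R (Fin n))).sum_repr
    (exteriorPower.ιMulti R p (fun i => A (s.1.orderEmbOfFin s.2 i))), map_sum, map_sum,
    Finsupp.coe_finset_sum, Finset.sum_apply]
  apply Finset.sum_congr rfl
  intro u _
  rw [map_smul, map_smul, Finsupp.smul_apply, smul_eq_mul, cmp_eq_repr, cmp_eq_repr, bE_apply,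
    exteriorPower.map_apply_ιMulti]
  congr 4
  ext i j
  simp

theorem cmp_one {n : ℕ} (p : ℕ) {R : Type*} [CommRing R] :
    cmp p (1 : Matrix (Fin n) (Fin n) R) = 1 := by
  ext s t
  rw [cmp_eq_repr]
  have h1 : exteriorPower.ιMulti R p (fun i => (1 : Matrix (Fin n) (Fin n) R)
      (s.1.orderEmbOfFin s.2 i)) = bE p (Pi.basisFun R (Fin n)) s := by
    rw [bE_apply]
    congr 1
    ext i j
    simp [Matrix.one_apply, Pi.single_apply, eq_comm]
  rw [h1, Basis.repr_self, Matrix.one_apply, Finsupp.single_apply]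

theorem det_update_one {p : ℕ} {R : Type*} [CommRing R] (j : Fin p) (u : Fin p → R) :
    ((1 : Matrix (Fin p) (Fin p) R).updateRow j u).det = u j := by
  rw [← Matrix.cramer_transpose_apply, Matrix.transpose_one, Matrix.cramer_one]
  rfl

/-- the subspace of all `y` such that every `p`-vector with factor `y` lies in `V` -/
noncomputable def FV (n p : ℕ) (L : Type*) [Field L] (V : Submodule L (Sub n p → L)) :
    Submodule L (Fin n → L) where
  carrier := {y | ∀ (z : Fin p → Fin n → L) (j : Fin p),
    ((bE p (Pi.basisFun L (Fin n))).equivFun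
      (exteriorPower.ιMulti L p (Function.update z j y))) ∈ V}
  add_mem' := by
    intro a b ha hb z j
    rw [AlternatingMap.map_update_add, map_add]
    exact V.add_mem (ha z j) (hb z j)
  zero_mem' := by
    intro z j
    rw [AlternatingMap.map_update_zero, map_zero]
    exact V.zero_mem
  smul_mem' := by
    intro c a ha z j
    rw [AlternatingMap.map_update_smul, map_smul]
    exact V.smul_mem c (ha z j)

theorem FV_spec (n p : ℕ) (L : Type*) [Field L] (s₀ : Sub n p) (x : Fin n → Fin n → L)
    (hx : LinearIndependent L x) :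
    FV n p L (Submodule.span L {y | ∃ s, s ≠ s₀ ∧ y = cmp p (Matrix.of x) s}) =
        Submodule.span L (x '' {a | a ∉ s₀.1}) := by
  classical
  set bx : Basis (Fin n) L (Fin n → L) :=
    basisOfLinearIndependentOfCardEqFinrank' x hx (by simp) with hbx
  have hbxx : ⇑bx = x := coe_basisOfLinearIndependentOfCardEqFinrank' x hx (by simp)
  set Φ := (bE p (Pi.basisFun L (Fin n))).equivFun with hΦ
  -- the span
  have hset : {y | ∃ s, s ≠ s₀ ∧ y = cmp p (Matrix.of x) s} =
      (Φ : (⋀[L]^p (Fin n → L)) →ₗ[L] (Sub n p → L)) '' (bE p bx '' {s | s ≠ s₀}) := by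
    ext y
    simp only [Set.mem_setOf_eq, Set.mem_image, exists_exists_and_eq_and]
    apply exists_congr
    intro s
    apply and_congr_right
    intro _
    have : (Φ : (⋀[L]^p (Fin n → L)) →ₗ[L] (Sub n p → L)) (bE p bx s) = cmp p (Matrix.of x) s := by
      ext t
      rw [cmp_eq_repr, bE_apply, hbxx]
      rfl
    rw [this]
    exact eq_comm
  have hV : ∀ w : ⋀[L]^p (Fin n → L),
      (Φ w ∈ Submodule.span L {y | ∃ s, s ≠ s₀ ∧ y = cmp p (Matrix.of x) s} ↔
        (bE p bx).repr w s₀ = 0) := by
    intro w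
    rw [hset, Submodule.span_image]
    have h1 : Φ w ∈ Submodule.map (Φ : (⋀[L]^p (Fin n → L)) →ₗ[L] (Sub n p → L))
        (Submodule.span L (bE p bx '' {s | s ≠ s₀})) ↔
        w ∈ Submodule.span L (bE p bx '' {s | s ≠ s₀}) := by
      constructor
      · rintro ⟨w', hw', he⟩
        have : w' = w := Φ.injective he
        rw [← this]; exact hw'
      · intro hw
        exact ⟨w, hw, rfl⟩
    rw [h1, Basis.mem_span_image]
    constructor
    · intro h
      by_contra hne
      exact (h (Finsupp.mem_support_iff.mpr hne)) rfl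
    · intro h s hs hs0
      apply Finsupp.mem_support_iff.mp hs
      rw [hs0]; exact h
  ext y
  have hY : y ∈ Submodule.span L (x '' {a | a ∉ s₀.1}) ↔
      ∀ j, bx.repr y (s₀.1.orderEmbOfFin s₀.2 j) = 0 := by
    rw [← hbxx, Basis.mem_span_image]
    constructor
    · intro h j
      by_contra hne
      exact (h (Finsupp.mem_support_iff.mpr hne)) (Finset.orderEmbOfFin_mem _ _ _)
    · intro h a ha ha0
      apply Finsupp.mem_support_iff.mp ha
      have : a ∈ Set.range (s₀.1.orderEmbOfFin s₀.2) := by
        rw [Finset.range_orderEmbOfFin]; exact ha0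
      obtain ⟨j, rfl⟩ := this
      exact h j
  rw [hY]
  show (∀ (z : Fin p → Fin n → L) (j : Fin p),
    (Φ (exteriorPower.ιMulti L p (Function.update z j y))) ∈ _) ↔ _
  simp only [hV, bE_repr]
  constructor
  · intro h j
    have h1 := h (fun i => x (s₀.1.orderEmbOfFin s₀.2 i)) j
    rw [← h1]
    have h2 : (Matrix.of fun i k => bx.repr (Function.update
        (fun i => x (s₀.1.orderEmbOfFin s₀.2 i)) j y i) (s₀.1.orderEmbOfFin s₀.2 k)) =
        (1 : Matrix (Fin p) (Fin p) L).updateRow j
          (fun k => bx.repr y (s₀.1.orderEmbOfFin s₀.2 k)) := by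
      ext i k
      rw [Matrix.of_apply, Matrix.updateRow_apply]
      split_ifs with hij
      · subst hij
        rw [Function.update_self]
      · rw [Function.update_of_ne hij, ← hbxx, Basis.repr_self, Matrix.one_apply,
          Finsupp.single_apply]
        simp
    rw [h2, det_update_one]
  · intro h z j
    apply Matrix.det_eq_zero_of_row_eq_zero j
    intro k
    rw [Matrix.of_apply, Function.update_self]
    exact h k

/-- EXT -/
theorem EXT : T_EXT.{u} := by
  refine ⟨?_, ?_, ?_⟩
  · intro n p R _ A B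
    exact cmp_mul p A B
  · intro n p R _
    exact cmp_one p
  · intro n p _ L _ s₀
    exact ⟨FV n p L, fun x hx => FV_spec n p L s₀ x hx⟩

end Pool.Agent.H4.UE
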