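import Mathlib
import Pool.Agent.H21.UE.Defs

/-!
# The generalised Wronskian lemma (module WRO of the proof for MP_c80192_nt)
-/

open MvPolynomial Finsupp

namespace Pool.Agent.H4.UE

open Pool.Agent.H21.UE

theorem coeff_hasse {m : ℕ} {R : Type*} [CommRing R] (I J : Fin m →₀ ℕ)
    (p : MvPolynomial (Fin m) R) :
    (hasse I p).coeff J = (∏ i, ((J i + I i).choose (I i) : R)) * p.coeff (J + I) := by
  classical
  unfold hasse
  rw [MvPolynomial.coeff_sum]
  simp only [coeff_monomial]
  have key : ∀ J' ∈ p.support, J' ≠ J + I →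
      (if J' - I = J then (∏ i, ((J' i).choose (I i) : R)) * p.coeff J' else 0) = 0 := by
    intro J' _ hne
    split_ifs with h
    · have : ∃ i, J' i < I i := by
        by_contra hcon
        push Not at hcon
        apply hne
        have hle : I ≤ J' := hcon
        rw [← h, tsub_add_cancel_of_le hle]
      obtain ⟨i, hi⟩ := this
      rw [Finset.prod_eq_zero (Finset.mem_univ i), zero_mul]
      rw [Nat.choose_eq_zero_of_lt hi, Nat.cast_zero]
    · rfl
  by_cases hmem : J + I ∈ p.support
  · rw [Finset.sum_eq_single_of_mem (J + I) hmem key]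
    rw [if_pos (by simp)]
    simp
  · rw [Finset.sum_eq_zero]
    · rw [MvPolynomial.notMem_support_iff.mp hmem, mul_zero]
    · intro J' hJ'
      apply key J' hJ'
      rintro rfl
      exact hmem hJ'

theorem hasse_zero {m : ℕ} (p : MvPolynomial (Fin m) ℚ) : hasse 0 p = p := by
  ext J
  rw [coeff_hasse]
  simp

theorem pderiv_hasse {m : ℕ} (h : Fin m) (I : Fin m →₀ ℕ) (p : MvPolynomial (Fin m) ℚ) :
    pderiv h (hasse I p) = C ((I h : ℚ) + 1) * hasse (I + single h 1) p := by
  classical
  ext J
  rw [coeff_pderiv, coeff_hasse, coeff_C_mul, coeff_hasse]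
  have e1 : J + single h 1 + I = J + (I + single h 1) := by
    ext i; simp; ring
  rw [e1]
  have e2 : (∏ i, (((J + single h 1 : Fin m →₀ ℕ) i + I i).choose (I i) : ℚ)) * (J h + 1) =
      ((I h : ℚ) + 1) * ∏ i, ((J i + (I + single h 1 : Fin m →₀ ℕ) i).choose
        ((I + single h 1 : Fin m →₀ ℕ) i) : ℚ) := by
    rw [← Finset.mul_prod_erase Finset.univ _ (Finset.mem_univ h),
      ← Finset.mul_prod_erase Finset.univ
        (fun i => ((J i + (I + single h 1 : Fin m →₀ ℕ) i).choose
        ((I + single h 1 : Fin m →₀ ℕ) i) : ℚ)) (Finset.mem_univ h)]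
    have e3 : ∏ i ∈ Finset.univ.erase h, (((J + single h 1 : Fin m →₀ ℕ) i + I i).choose (I i) : ℚ)
        = ∏ i ∈ Finset.univ.erase h, ((J i + (I + single h 1 : Fin m →₀ ℕ) i).choose
        ((I + single h 1 : Fin m →₀ ℕ) i) : ℚ) := by
      apply Finset.prod_congr rfl
      intro i hi
      have hne : h ≠ i := (Finset.ne_of_mem_erase hi).symm
      simp [hne]
    rw [e3]
    have e4 : (((J + single h 1 : Fin m →₀ ℕ) h + I h).choose (I h) : ℚ) * (J h + 1) =
        ((I h : ℚ) + 1) * ((J h + (I + single h 1 : Fin m →₀ ℕ) h).choose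
        ((I + single h 1 : Fin m →₀ ℕ) h) : ℚ) := by
      have e5 : (J + single h 1 : Fin m →₀ ℕ) h + I h = J h + I h + 1 := by
        simp; ring
      have e6 : J h + (I + single h 1 : Fin m →₀ ℕ) h = J h + I h + 1 := by
        simp; ring
      have e7 : (I + single h 1 : Fin m →₀ ℕ) h = I h + 1 := by simp
      rw [e5, e6, e7]
      have := Nat.choose_succ_right_eq (J h + I h + 1) (I h)
      have h8 : J h + I h + 1 - I h = J h + 1 := by omega
      rw [h8] at this
      have h9 : ((J h + I h + 1).choose (I h + 1) : ℚ) * ((I h : ℚ) + 1) =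
          ((J h + I h + 1).choose (I h) : ℚ) * ((J h : ℚ) + 1) := by exact_mod_cast this
      rw [← h9]; ring
    rw [mul_right_comm, e4, mul_assoc]
  calc _ = ((∏ i, (((J + single h 1 : Fin m →₀ ℕ) i + I i).choose (I i) : ℚ)) * (J h + 1)) *
      coeff (J + (I + single h 1)) p := by ring
    _ = _ := by rw [e2]; ring

/-- a polynomial all of whose partial derivatives vanish is constant -/
theorem eq_C_of_pderiv {m : ℕ} (p : MvPolynomial (Fin m) ℚ) (h : ∀ i, pderiv i p = 0) :
    p = C (coeff 0 p) := by
  classical
  ext J
  rw [coeff_C]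
  split_ifs with h0
  · rw [h0]
  · have : ∃ i, J i ≠ 0 := by
      by_contra hcon
      push Not at hcon
      exact h0 (by ext i; simp [hcon i])
    obtain ⟨i, hi⟩ := this
    have h1 := congrArg (coeff (J - single i 1)) (h i)
    rw [coeff_pderiv, coeff_zero] at h1
    have h2 : J - single i 1 + single i 1 = J := by
      apply tsub_add_cancel_of_le
      rw [Finsupp.single_le_iff]
      omega
    rw [h2] at h1
    rcases mul_eq_zero.mp h1 with h3 | h3
    · exact h3
    · exfalso
      have : (0 : ℚ) ≤ ((J - single i 1 : Fin m →₀ ℕ) i : ℚ) := Nat.cast_nonneg _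
      linarith

theorem totalDegree_pderiv {m : ℕ} (p : MvPolynomial (Fin m) ℚ) (i : Fin m) (N : ℕ)
    (h : p.totalDegree ≤ N + 1) : (pderiv i p).totalDegree ≤ N := by
  classical
  rw [totalDegree]
  apply Finset.sup_le
  intro J hJ
  rw [MvPolynomial.mem_support_iff, coeff_pderiv] at hJ
  have h1 : J + single i 1 ∈ p.support := by
    rw [MvPolynomial.mem_support_iff]
    exact left_ne_zero_of_mul hJ
  have h2 := le_totalDegree h1
  have h3 : (J + single i 1).sum (fun _ e => e) = J.sum (fun _ e => e) + 1 := by
    rw [Finsupp.sum_add_index' (fun _ => rfl) (fun _ _ _ => rfl)]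
    simp
  rw [h3] at h2
  show J.sum (fun _ e => e) ≤ N
  omega

/-- a nonzero vector annihilating a derivation-closed set which contains `φ` -/
theorem no_ann {m k : ℕ} (φ : Fin k → MvPolynomial (Fin m) ℚ) (hφ : LinearIndependent ℚ φ)
    (M : Set (Fin k → MvPolynomial (Fin m) ℚ)) (hM : φ ∈ M)
    (hD : ∀ x ∈ M, ∀ h, (fun j => pderiv h (x j)) ∈ M) :
    ∀ (N : ℕ) (c : Fin k → MvPolynomial (Fin m) ℚ), (∀ j, (c j).totalDegree ≤ N) →
      (∀ x ∈ M, ∑ j, c j * x j = 0) → c = 0 := by
  -- constants
  have hconst : ∀ c : Fin k → MvPolynomial (Fin m) ℚ, (∀ j h, pderiv h (c j) = 0) →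
      (∀ x ∈ M, ∑ j, c j * x j = 0) → c = 0 := by
    intro c hc hx
    have h1 := hx φ hM
    rw [Fintype.linearIndependent_iff] at hφ
    have h2 : ∀ j, coeff 0 (c j) = 0 := by
      apply hφ
      rw [← h1]
      apply Finset.sum_congr rfl
      intro j _
      conv_rhs => rw [eq_C_of_pderiv (c j) (hc j)]
      rw [C_mul']
    ext1 j
    rw [eq_C_of_pderiv (c j) (hc j), h2 j]
    simp
  intro N
  induction N with
  | zero =>
    intro c hc hx
    apply hconst c _ hx
    intro j h
    have h1 := hc j
    rw [Nat.le_zero, totalDegree_eq_zero_iff_eq_C] at h1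
    rw [h1]; simp
  | succ N ih =>
    intro c hc hx
    apply hconst c _ hx
    intro j h
    have h1 : (fun j => pderiv h (c j)) = 0 := by
      apply ih
      · intro j
        exact totalDegree_pderiv _ _ _ (hc j)
      · intro x hxM
        have h2 := congrArg (pderiv h) (hx x hxM)
        rw [map_sum, map_zero] at h2
        have h3 := hx _ (hD x hxM h)
        have h4 : ∑ j, pderiv h (c j * x j) = ∑ j, pderiv h (c j) * x j +
            ∑ j, c j * pderiv h (x j) := by
          rw [← Finset.sum_add_distrib]
          apply Finset.sum_congr rfl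
          intro j _
          rw [pderiv_mul]
        rw [h4, h3, add_zero] at h2
        exact h2
    exact congrFun h1 j

/-- greedy choice of the derivatives -/
theorem exists_family {m k : ℕ} (φ : Fin k → MvPolynomial (Fin m) ℚ)
    (hφ : LinearIndependent ℚ φ) :
    ∀ s, s ≤ k → ∃ I : Fin s → (Fin m →₀ ℕ), (∀ i, (I i).degree ≤ i) ∧
      LinearIndependent (MvPolynomial (Fin m) ℚ)
        (fun i : Fin s => (fun j => hasse (I i) (φ j) : Fin k → MvPolynomial (Fin m) ℚ)) := by
  intro s
  induction s with
  | zero =>
    intro _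
    exact ⟨fun i => i.elim0, fun i => i.elim0, linearIndependent_empty_type⟩
  | succ s ih =>
    intro hs
    obtain ⟨I, hI, hli⟩ := ih (by omega)
    set v : Fin s → (Fin k → MvPolynomial (Fin m) ℚ) :=
      fun i => (fun j => hasse (I i) (φ j)) with hv
    set S : Submodule (MvPolynomial (Fin m) ℚ) (Fin k → MvPolynomial (Fin m) ℚ) :=
      Submodule.span _ (Set.range v) with hS
    -- the saturation
    set M : Set (Fin k → MvPolynomial (Fin m) ℚ) := {x | ∃ d : MvPolynomial (Fin m) ℚ, d ≠ 0 ∧
      d • x ∈ S} with hMdef
    by_cases hall : ∀ J : Fin m →₀ ℕ, J.degree ≤ s → (fun j => hasse J (φ j)) ∈ M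
    · -- contradiction
      exfalso
      have hM0 : φ ∈ M := by
        have := hall 0 (by simp)
        simpa [hasse_zero] using this
      have hMadd : ∀ x ∈ M, ∀ y ∈ M, x + y ∈ M := by
        rintro x ⟨d, hd, hdx⟩ y ⟨e, he, hey⟩
        refine ⟨d * e, mul_ne_zero hd he, ?_⟩
        rw [smul_add]
        apply S.add_mem
        · rw [mul_comm, mul_smul]; exact S.smul_mem _ hdx
        · rw [mul_smul]; exact S.smul_mem _ hey
      have hMsmul : ∀ (a : MvPolynomial (Fin m) ℚ), ∀ x ∈ M, a • x ∈ M := by
        rintro a x ⟨d, hd, hdx⟩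
        refine ⟨d, hd, ?_⟩
        rw [smul_comm]; exact S.smul_mem _ hdx
      have hSM : ∀ x ∈ S, x ∈ M := fun x hx => ⟨1, one_ne_zero, by simpa using hx⟩
      have hM00 : (0 : Fin k → MvPolynomial (Fin m) ℚ) ∈ M := hSM 0 S.zero_mem
      have hMcancel : ∀ (a : MvPolynomial (Fin m) ℚ) (x : Fin k → MvPolynomial (Fin m) ℚ),
          a ≠ 0 → a • x ∈ M → x ∈ M := by
        rintro a x ha ⟨d, hd, hdx⟩
        exact ⟨d * a, mul_ne_zero hd ha, by rw [mul_smul]; exact hdx⟩
      have hDS : ∀ x ∈ S, ∀ h, (fun j => pderiv h (x j)) ∈ M := by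
        intro x hx h
        induction hx using Submodule.span_induction with
        | mem x hx =>
          obtain ⟨i, rfl⟩ := hx
          have h1 : (fun j => pderiv h (v i j)) = (C (((I i) h : ℚ) + 1) : MvPolynomial (Fin m) ℚ) •
              (fun j => hasse (I i + single h 1) (φ j)) := by
            ext1 j
            simp only [hv, Pi.smul_apply, smul_eq_mul]
            rw [pderiv_hasse]
          rw [h1]
          apply hMsmul
          apply hall
          have h2 : (I i + single h 1).degree = (I i).degree + 1 := by
            rw [map_add]; simp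
          rw [h2]
          have := hI i
          have := i.2
          omega
        | zero =>
          have : (fun j => pderiv h ((0 : Fin k → MvPolynomial (Fin m) ℚ) j)) = 0 := by
            ext1 j; simp
          rw [this]; exact hM00
        | add x y _ _ hx hy =>
          have : (fun j => pderiv h ((x + y) j)) =
              (fun j => pderiv h (x j)) + (fun j => pderiv h (y j)) := by
            ext1 j; simp
          rw [this]; exact hMadd _ hx _ hy
        | smul a x hxS hx =>
          have : (fun j => pderiv h ((a • x) j)) =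
              (pderiv h a) • x + a • (fun j => pderiv h (x j)) := by
            ext1 j
            simp only [Pi.smul_apply, smul_eq_mul, Pi.add_apply]
            rw [pderiv_mul]
          rw [this]
          exact hMadd _ (hMsmul _ _ (hSM _ hxS)) _ (hMsmul _ _ hx)
      have hD : ∀ x ∈ M, ∀ h, (fun j => pderiv h (x j)) ∈ M := by
        rintro x ⟨d, hd, hdx⟩ h
        apply hMcancel d _ hd
        have h1 := hDS _ hdx h
        have h2 : (fun j => pderiv h ((d • x) j)) =
              (pderiv h d) • x + d • (fun j => pderiv h (x j)) := by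
            ext1 j
            simp only [Pi.smul_apply, smul_eq_mul, Pi.add_apply]
            rw [pderiv_mul]
        rw [h2] at h1
        have h3 : (-(pderiv h d)) • x ∈ M := hMsmul _ _ ⟨d, hd, hdx⟩
        have h4 := hMadd _ h3 _ h1
        rw [← add_assoc, neg_smul, neg_add_cancel, zero_add] at h4
        exact h4
      -- a nonzero annihilating vector
      let f : (Fin k → MvPolynomial (Fin m) ℚ) →ₗ[MvPolynomial (Fin m) ℚ]
          (Fin s → MvPolynomial (Fin m) ℚ) := Matrix.mulVecLin (Matrix.of v)
      have hninj : ¬ Function.Injective f := by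
        intro hinj
        have := le_of_fin_injective (MvPolynomial (Fin m) ℚ) f hinj
        omega
      rw [injective_iff_map_eq_zero] at hninj
      push Not at hninj
      obtain ⟨c, hc, hc0⟩ := hninj
      apply hc0
      have hcS : ∀ x ∈ S, ∑ j, c j * x j = 0 := by
        intro x hx
        induction hx using Submodule.span_induction with
        | mem x hx =>
          obtain ⟨i, rfl⟩ := hx
          have h1 := congrFun hc i
          simp only [f, Matrix.mulVecLin_apply, Matrix.mulVec, dotProduct, Matrix.of_apply,
            Pi.zero_apply] at h1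
          rw [← h1]
          apply Finset.sum_congr rfl
          intro j _
          ring
        | zero => simp
        | add x y _ _ hx hy =>
          simp only [Pi.add_apply, mul_add, Finset.sum_add_distrib, hx, hy, add_zero]
        | smul a x _ hx =>
          have : ∑ j, c j * (a • x) j = a * ∑ j, c j * x j := by
            rw [Finset.mul_sum]
            apply Finset.sum_congr rfl
            intro j _
            simp only [Pi.smul_apply, smul_eq_mul]; ring
          rw [this, hx, mul_zero]
      have hcM : ∀ x ∈ M, ∑ j, c j * x j = 0 := by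
        rintro x ⟨d, hd, hdx⟩
        have h1 := hcS _ hdx
        have : ∑ j, c j * (d • x) j = d * ∑ j, c j * x j := by
          rw [Finset.mul_sum]
          apply Finset.sum_congr rfl
          intro j _
          simp only [Pi.smul_apply, smul_eq_mul]; ring
        rw [this] at h1
        exact (mul_eq_zero.mp h1).resolve_left hd
      exact no_ann φ hφ M hM0 hD (Finset.univ.sup fun j => (c j).totalDegree) c
        (fun j => Finset.le_sup (f := fun j => (c j).totalDegree) (Finset.mem_univ j)) hcM
    · push Not at hall
      obtain ⟨J, hJ, hJM⟩ := hall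
      refine ⟨Fin.snoc I J, ?_, ?_⟩
      · intro i
        refine Fin.lastCases ?_ (fun i => ?_) i
        · simpa using hJ
        · simpa using hI i
      · rw [Fintype.linearIndependent_iff] at hli ⊢
        intro g hg
        rw [Fin.sum_univ_castSucc] at hg
        simp only [Fin.snoc_castSucc, Fin.snoc_last] at hg
        have hlast : g (Fin.last s) = 0 := by
          by_contra hne
          apply hJM
          refine ⟨g (Fin.last s), hne, ?_⟩
          have h1 : g (Fin.last s) • (fun j => hasse J (φ j)) =
              -(∑ i : Fin s, g i.castSucc • v i) := by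
            rw [eq_neg_iff_add_eq_zero, add_comm]
            exact hg
          rw [h1]
          apply S.neg_mem
          apply S.sum_mem
          intro i _
          apply S.smul_mem
          exact Submodule.subset_span ⟨i, rfl⟩
        rw [hlast, zero_smul, add_zero] at hg
        have h2 := hli (fun i => g i.castSucc) hg
        intro i
        refine Fin.lastCases hlast (fun i => h2 i) i

/-- WRO -/
theorem WRO : T_WRO := by
  intro m k φ hφ
  obtain ⟨I, hI, hli⟩ := exists_family φ hφ k le_rfl
  refine ⟨I, hI, ?_⟩
  intro hdet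
  rw [← Matrix.exists_vecMul_eq_zero_iff] at hdet
  obtain ⟨g, hg0, hg⟩ := hdet
  rw [Fintype.linearIndependent_iff] at hli
  apply hg0
  ext1 i
  apply hli g
  ext1 j
  have h1 := congrFun hg j
  simp only [Matrix.vecMul, dotProduct, Matrix.of_apply, Pi.zero_apply] at h1
  simp only [Finset.sum_apply, Pi.smul_apply, smul_eq_mul, Pi.zero_apply]
  exact h1

end Pool.Agent.H4.UE
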