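import Mathlib
import Pool.Agent.H21.UE.Defs
import Pool.Agent.H21.UE.Basic
import Pool.Agent.H4.UE.WRO

/-!
# Hasse derivatives and the index (module HAS of the proof for MP_c80192_nt)
-/

open MvPolynomial

namespace Pool.Agent.H4.UE

universe u

open Pool.Agent.H21.UE

section

variable {m : ℕ} {R : Type*} [CommRing R]

theorem hasse_add (I : Fin m →₀ ℕ) (p q : MvPolynomial (Fin m) R) :
    hasse I (p + q) = hasse I p + hasse I q := by
  ext J
  rw [coeff_hasse, coeff_add, coeff_add, coeff_hasse, coeff_hasse, mul_add]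

theorem hasse_monomial (I J : Fin m →₀ ℕ) (a : R) :
    hasse I (monomial J a) = monomial (J - I) ((∏ i, ((J i).choose (I i) : R)) * a) := by
  classical
  ext K
  rw [coeff_hasse, coeff_monomial, coeff_monomial]
  by_cases h : J = K + I
  · subst h
    simp
  · rw [if_neg h, mul_zero]
    split_ifs with h2
    · have : ∃ i, J i < I i := by
        by_contra hcon
        push Not at hcon
        apply h
        have hle : I ≤ J := hcon
        rw [← h2, tsub_add_cancel_of_le hle]
      obtain ⟨i, hi⟩ := this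
      rw [Finset.prod_eq_zero (Finset.mem_univ i), zero_mul]
      rw [Nat.choose_eq_zero_of_lt hi, Nat.cast_zero]
    · rfl

theorem tay_add (ξ : Fin m → R) (p q : MvPolynomial (Fin m) R) :
    tay ξ (p + q) = tay ξ p + tay ξ q := by
  simp only [tay, map_add]

theorem tay_mul (ξ : Fin m → R) (p q : MvPolynomial (Fin m) R) :
    tay ξ (p * q) = tay ξ p * tay ξ q := by
  simp only [tay, map_mul]

theorem coeff_tay_monomial (ξ : Fin m → R) (J K : Fin m →₀ ℕ) (a : R) :
    coeff K (tay ξ (monomial J a)) =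
      a * ∏ i, (((J i).choose (K i) : R) * ξ i ^ (J i - K i)) := by
  classical
  rw [tay, aeval_monomial, Finsupp.prod_fintype _ _ (by simp), ← C_eq_algebraMap]
  rw [coeff_C_mul]
  congr 1
  have h1 : ∀ i, (X i + C (ξ i) : MvPolynomial (Fin m) R) ^ J i =
      ∑ k ∈ Finset.range (J i + 1), monomial (Finsupp.single i k)
        (((J i).choose k : R) * ξ i ^ (J i - k)) := by
    intro i
    rw [add_pow]
    apply Finset.sum_congr rfl
    intro k _
    rw [← C_pow, X_pow_eq_monomial, mul_comm (monomial _ _) (C _), C_mul_monomial]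
    rw [mul_one, ← map_natCast (C : R →+* MvPolynomial (Fin m) R), mul_comm, C_mul_monomial]
  simp_rw [h1]
  rw [Finset.prod_univ_sum, coeff_sum]
  have h2 : ∀ f : Fin m → ℕ, (∏ i, monomial (Finsupp.single i (f i))
        (((J i).choose (f i) : R) * ξ i ^ (J i - f i)) : MvPolynomial (Fin m) R) =
      monomial (∑ i, Finsupp.single i (f i))
        (∏ i, (((J i).choose (f i) : R) * ξ i ^ (J i - f i))) := by
    intro f
    rw [monomial_sum_prod]
  simp_rw [h2, coeff_monomial]
  have h3 : ∀ f : Fin m → ℕ, (∑ i, Finsupp.single i (f i)) = K ↔ f = K := by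
    intro f
    constructor
    · intro h
      ext1 j
      rw [← h, Finsupp.finsetSum_apply]
      simp [Finsupp.single_apply]
    · rintro rfl
      exact Finsupp.univ_sum_single K
  simp_rw [h3]
  by_cases hK : ∀ i, K i ≤ J i
  · rw [Finset.sum_eq_single_of_mem (K : Fin m → ℕ)]
    · rw [if_pos rfl]
    · rw [Fintype.mem_piFinset]
      intro i
      rw [Finset.mem_range]
      exact Nat.lt_succ_of_le (hK i)
    · intro f _ hf
      rw [if_neg hf]
  · push Not at hK
    obtain ⟨i, hi⟩ := hK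
    rw [Finset.sum_eq_zero, Finset.prod_eq_zero (Finset.mem_univ i)]
    · rw [Nat.choose_eq_zero_of_lt hi, Nat.cast_zero, zero_mul]
    · intro f hf
      rw [if_neg]
      rintro rfl
      rw [Fintype.mem_piFinset] at hf
      have := hf i
      rw [Finset.mem_range] at this
      omega

theorem tay_hasse (ξ : Fin m → R) (I : Fin m →₀ ℕ) (p : MvPolynomial (Fin m) R) :
    tay ξ (hasse I p) = hasse I (tay ξ p) := by
  induction p using MvPolynomial.induction_on' with
  | monomial J a =>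
    ext K
    rw [hasse_monomial, coeff_tay_monomial, coeff_hasse, coeff_tay_monomial]
    have h1 : (∏ i, ((J i).choose (I i) : R)) *
        ∏ i, ((((J - I : Fin m →₀ ℕ) i).choose (K i) : R) * ξ i ^ ((J - I : Fin m →₀ ℕ) i - K i)) =
        (∏ i, ((K i + I i).choose (I i) : R)) *
          ∏ i, (((J i).choose ((K + I : Fin m →₀ ℕ) i) : R) *
            ξ i ^ (J i - (K + I : Fin m →₀ ℕ) i)) := by
      rw [← Finset.prod_mul_distrib, ← Finset.prod_mul_distrib]
      apply Finset.prod_congr rfl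
      intro i _
      have h2 := Nat.choose_mul (n := J i) (k := K i + I i) (s := I i) (by omega)
      rw [Nat.add_sub_cancel] at h2
      have h3 : ((J i).choose (K i + I i) : R) * ((K i + I i).choose (I i) : R) =
          ((J i).choose (I i) : R) * ((J i - I i).choose (K i) : R) := by
        have h5 := congrArg (Nat.cast : ℕ → R) h2
        push_cast at h5
        exact h5
      have h4 : J i - I i - K i = J i - (K i + I i) := by omega
      simp only [Finsupp.coe_tsub, Pi.sub_apply, Finsupp.coe_add, Pi.add_apply]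
      rw [h4, ← mul_assoc, ← h3]
      ring
    calc _ = a * ((∏ i, ((J i).choose (I i) : R)) * ∏ i, ((((J - I : Fin m →₀ ℕ) i).choose (K i) : R)
          * ξ i ^ ((J - I : Fin m →₀ ℕ) i - K i))) := by ring
      _ = _ := by rw [h1]; ring
  | add p q hp hq =>
    rw [hasse_add, tay_add, tay_add, hasse_add, hp, hq]

theorem indGE_hasse (ξ : Fin m → R) (r : Fin m → ℝ) (θ : ℝ)
    (I : Fin m →₀ ℕ) (p : MvPolynomial (Fin m) R) (h : IndGE ξ r θ p) :
    IndGE ξ r (θ - ∑ i, (I i : ℝ) / r i) (hasse I p) := by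
  intro J hJ
  rw [tay_hasse, coeff_hasse, h, mul_zero]
  have : ∑ i, ((J + I : Fin m →₀ ℕ) i : ℝ) / r i = ∑ i, (J i : ℝ) / r i + ∑ i, (I i : ℝ) / r i := by
    rw [← Finset.sum_add_distrib]
    apply Finset.sum_congr rfl
    intro i _
    rw [← add_div]
    simp
  rw [this]
  linarith

theorem indGE_mul (ξ : Fin m → R) (r : Fin m → ℝ) (θ θ' : ℝ)
    (p q : MvPolynomial (Fin m) R) (hp : IndGE ξ r θ p) (hq : IndGE ξ r θ' q) :
    IndGE ξ r (θ + θ') (p * q) := by
  classical
  intro J hJ
  rw [tay_mul, coeff_mul]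
  apply Finset.sum_eq_zero
  rintro ⟨A, B⟩ hAB
  rw [Finset.HasAntidiagonal.mem_antidiagonal] at hAB
  simp only at hAB ⊢
  have h1 : ∑ i, (J i : ℝ) / r i = ∑ i, (A i : ℝ) / r i + ∑ i, (B i : ℝ) / r i := by
    rw [← Finset.sum_add_distrib]
    apply Finset.sum_congr rfl
    intro i _
    rw [← add_div, ← hAB]
    simp
  by_cases h2 : ∑ i, (A i : ℝ) / r i < θ
  · rw [hp A h2, zero_mul]
  · rw [hq B (by linarith), mul_zero]

theorem indGE_one (ξ : Fin m → R) (r : Fin m → ℝ) (hr : ∀ i, 0 < r i) :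
    IndGE ξ r 0 (1 : MvPolynomial (Fin m) R) := by
  intro J hJ
  exfalso
  apply absurd hJ
  rw [not_lt]
  exact Finset.sum_nonneg fun i _ => div_nonneg (Nat.cast_nonneg _) (hr i).le

theorem indGE_prod {α : Type*} (ξ : Fin m → R) (r : Fin m → ℝ) (hr : ∀ i, 0 < r i)
    (s : Finset α) (θ : α → ℝ) (f : α → MvPolynomial (Fin m) R)
    (h : ∀ a ∈ s, IndGE ξ r (θ a) (f a)) :
    IndGE ξ r (∑ a ∈ s, θ a) (∏ a ∈ s, f a) := by
  classical
  induction s using Finset.induction_on with
  | empty => simpa using indGE_one ξ r hr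
  | insert a s ha ih =>
    rw [Finset.sum_insert ha, Finset.prod_insert ha]
    exact indGE_mul ξ r _ _ _ _ (h a (Finset.mem_insert_self _ _))
      (ih fun b hb => h b (Finset.mem_insert_of_mem hb))

theorem indGE_sum {α : Type*} (ξ : Fin m → R) (r : Fin m → ℝ) (θ : ℝ)
    (s : Finset α) (f : α → MvPolynomial (Fin m) R) (h : ∀ a ∈ s, IndGE ξ r θ (f a)) :
    IndGE ξ r θ (∑ a ∈ s, f a) := by
  intro J hJ
  have h1 : tay ξ (∑ a ∈ s, f a) = ∑ a ∈ s, tay ξ (f a) := by
    simp only [tay, map_sum]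
  rw [h1, coeff_sum]
  exact Finset.sum_eq_zero fun a ha => h a ha J hJ

theorem indGE_neg (ξ : Fin m → R) (r : Fin m → ℝ) (θ : ℝ)
    (p : MvPolynomial (Fin m) R) (h : IndGE ξ r θ p) : IndGE ξ r θ (-p) := by
  intro J hJ
  have h1 : tay ξ (-p) = -tay ξ p := by simp only [tay, map_neg]
  rw [h1, coeff_neg, h J hJ, neg_zero]

theorem indGE_det {k : ℕ} (ξ : Fin m → R) (r : Fin m → ℝ) (θ : Fin k → ℝ)
    (A : Matrix (Fin k) (Fin k) (MvPolynomial (Fin m) R)) (hr : ∀ i, 0 < r i)
    (h : ∀ i j, IndGE ξ r (θ j) (A i j)) : IndGE ξ r (∑ j, θ j) A.det := by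
  rw [Matrix.det_apply]
  apply indGE_sum
  intro σ _
  have h1 : IndGE ξ r (∑ j, θ j) (∏ j, A (σ j) j) :=
    indGE_prod ξ r hr Finset.univ θ _ fun j _ => h (σ j) j
  rcases Int.units_eq_one_or (Equiv.Perm.sign σ) with h2 | h2
  · rw [h2, one_smul]; exact h1
  · rw [h2, Units.neg_smul, one_smul]; exact indGE_neg ξ r _ _ h1

end

theorem hasse_norm (m : ℕ) (I : Fin m →₀ ℕ) (r : Fin m → ℕ) (p : MvPolynomial (Fin m) ℤ)
    (hr : ∀ i, p.degreeOf i ≤ r i) : (∀ i, (hasse I p).degreeOf i ≤ r i) ∧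
      l1 (hasse I p) ≤ 2 ^ (∑ i, r i) * l1 p := by
  constructor
  · intro i
    rw [degreeOf_le_iff]
    intro J hJ
    rw [MvPolynomial.mem_support_iff, coeff_hasse] at hJ
    have h1 : J + I ∈ p.support := by
      rw [MvPolynomial.mem_support_iff]
      exact right_ne_zero_of_mul hJ
    have h2 := (degreeOf_le_iff.mp (hr i)) _ h1
    simp only [Finsupp.coe_add, Pi.add_apply] at h2
    omega
  · unfold hasse
    refine (l1_sum_le _ _).trans ?_
    rw [l1, Finset.mul_sum]
    apply Finset.sum_le_sum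
    intro J hJ
    rw [l1_monomial]
    push_cast
    rw [abs_mul]
    apply mul_le_mul_of_nonneg_right _ (abs_nonneg _)
    rw [Finset.abs_prod, ← Finset.prod_pow_eq_pow_sum]
    apply Finset.prod_le_prod
    · intro i _; exact abs_nonneg _
    · intro i _
      rw [abs_of_nonneg (Nat.cast_nonneg _)]
      have h1 : (J i).choose (I i) ≤ 2 ^ (J i) := Nat.choose_le_two_pow _ _
      have h2 : J i ≤ r i := (degreeOf_le_iff.mp (hr i)) _ hJ
      calc ((J i).choose (I i) : ℝ) ≤ (2 : ℝ) ^ (J i) := by exact_mod_cast h1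
        _ ≤ 2 ^ r i := pow_le_pow_right₀ (by norm_num) h2

/-- HAS -/
theorem HAS : T_HAS.{u} := by
  refine ⟨?_, ?_, ?_, ?_, ?_⟩
  · intro m R _ I J p
    exact coeff_hasse I J p
  · intro m I r p hr
    exact hasse_norm m I r p hr
  · intro m R _ ξ r θ I p _ h
    exact indGE_hasse ξ r θ I p h
  · intro m R _ ξ r θ θ' p q _ hp hq
    exact indGE_mul ξ r θ θ' p q hp hq
  · intro m k R _ ξ r θ A hr h
    exact indGE_det ξ r θ A hr h

end Pool.Agent.H4.UE
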